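import Mathlib

/-!
# Project K'', block B7a: triangular forms with a given order of the eigenvalues
-/

set_option autoImplicit false

open Matrix

namespace Pool.Agent.Helper9.KT

variable {K : Type} [Field K]

/-- the block matrix with the blocks `1` and `C` -/
private def up {N : ℕ} (C : Matrix (Fin N) (Fin N) K) : Matrix (Fin (N + 1)) (Fin (N + 1)) K :=
  Matrix.of fun i j => Fin.cases (Fin.cases 1 (fun _ => 0) j) (fun i' => Fin.cases 0 (fun j' => C i' j') j) i

private theorem up_00 {N : ℕ} (C : Matrix (Fin N) (Fin N) K) : up C 0 0 = 1 := rfl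
private theorem up_0s {N : ℕ} (C : Matrix (Fin N) (Fin N) K) (j : Fin N) : up C 0 j.succ = 0 := rfl
private theorem up_s0 {N : ℕ} (C : Matrix (Fin N) (Fin N) K) (i : Fin N) : up C i.succ 0 = 0 := rfl
private theorem up_ss {N : ℕ} (C : Matrix (Fin N) (Fin N) K) (i j : Fin N) : up C i.succ j.succ = C i j := rfl

private theorem up_mul {N : ℕ} (C D : Matrix (Fin N) (Fin N) K) : up C * up D = up (C * D) := by
  ext i j
  refine Fin.cases ?_ (fun i' => ?_) i <;> refine Fin.cases ?_ (fun j' => ?_) j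
  · simp [Matrix.mul_apply, Fin.sum_univ_succ, up_00, up_0s, up_s0]
  · simp [Matrix.mul_apply, Fin.sum_univ_succ, up_00, up_0s, up_ss]
  · simp [Matrix.mul_apply, Fin.sum_univ_succ, up_00, up_s0, up_ss]
  · simp [Matrix.mul_apply, Fin.sum_univ_succ, up_0s, up_s0, up_ss]

private theorem up_one {N : ℕ} : up (1 : Matrix (Fin N) (Fin N) K) = 1 := by
  ext i j
  refine Fin.cases ?_ (fun i' => ?_) i <;> refine Fin.cases ?_ (fun j' => ?_) j
  · simp [up_00]
  · rw [up_0s, Matrix.one_apply_ne (Fin.succ_ne_zero j').symm]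
  · rw [up_s0, Matrix.one_apply_ne (Fin.succ_ne_zero i')]
  · rw [up_ss, Matrix.one_apply, Matrix.one_apply]
    simp only [Fin.succ_inj]

/-- a matrix with a given first column -/
private theorem exists_col {N : ℕ} {v : Fin (N + 1) → K} (hv : v ≠ 0) : ∃ B : GL (Fin (N + 1)) K, (B : Matrix (Fin (N + 1)) (Fin (N + 1)) K).col 0 = v := by
  obtain ⟨k, hk⟩ := Function.ne_iff.1 hv
  let M : Matrix (Fin (N + 1)) (Fin (N + 1)) K := (Matrix.updateCol 1 k v).submatrix id (Equiv.swap 0 k)
  have hdet : M.det ≠ 0 := by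
    have h1 : (Matrix.updateCol (1 : Matrix (Fin (N + 1)) (Fin (N + 1)) K) k v).det = v k := by
      rw [← Matrix.cramer_apply, Matrix.cramer_one]
      rfl
    show ((Matrix.updateCol 1 k v).submatrix id (Equiv.swap 0 k)).det ≠ 0
    rw [Matrix.det_permute', h1]
    refine mul_ne_zero ?_ hk
    rcases Int.units_eq_one_or (Equiv.Perm.sign (Equiv.swap 0 k)) with h | h <;> rw [h] <;> simp
  refine ⟨Matrix.GeneralLinearGroup.mkOfDetNeZero M hdet, ?_⟩
  funext a
  show (Matrix.updateCol 1 k v) a (Equiv.swap 0 k 0) = v a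
  rw [Equiv.swap_apply_left, Matrix.updateCol_self]

theorem triang {N : ℕ} (G : Matrix (Fin N) (Fin N) K) (d : Fin N → K) (hd : G.charpoly = ∏ j, (Polynomial.X - Polynomial.C (d j))) :
    ∃ B : GL (Fin N) K, (∀ s t, t < s → ((B⁻¹ : GL (Fin N) K) * G * B : Matrix (Fin N) (Fin N) K) s t = 0) ∧
      ∀ s, ((B⁻¹ : GL (Fin N) K) * G * B : Matrix (Fin N) (Fin N) K) s s = d s := by
  induction N with
  | zero => exact ⟨1, fun s => s.elim0, fun s => s.elim0⟩
  | succ N ih =>
    have hroot : (Matrix.scalar (Fin (N + 1)) (d 0) - G).det = 0 := by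
      rw [← Matrix.eval_charpoly, hd, Polynomial.eval_prod]
      exact Finset.prod_eq_zero (Finset.mem_univ 0) (by simp)
    obtain ⟨v, hv0, hv⟩ := Matrix.exists_mulVec_eq_zero_iff.2 hroot
    rw [Matrix.sub_mulVec, sub_eq_zero] at hv
    have hv' : G *ᵥ v = d 0 • v := by
      rw [← hv]
      ext a
      simp [Matrix.scalar_apply, Matrix.mulVec_diagonal]
    obtain ⟨B, hB⟩ := exists_col hv0
    have hBv : (B : Matrix (Fin (N + 1)) (Fin (N + 1)) K) *ᵥ Pi.single 0 1 = v := by rw [Matrix.mulVec_single_one, hB]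
    let H : Matrix (Fin (N + 1)) (Fin (N + 1)) K := (B⁻¹ : GL (Fin (N + 1)) K) * G * B
    have hH : ∀ a, H a 0 = if a = 0 then d 0 else 0 := by
      intro a
      have h1 : H *ᵥ Pi.single 0 1 = d 0 • Pi.single 0 1 := by
        show (((B⁻¹ : GL (Fin (N + 1)) K) : Matrix (Fin (N + 1)) (Fin (N + 1)) K) * G * (B : Matrix (Fin (N + 1)) (Fin (N + 1)) K)) *ᵥ Pi.single 0 1 = _
        rw [← Matrix.mulVec_mulVec, ← Matrix.mulVec_mulVec, hBv, hv', Matrix.mulVec_smul, ← hBv, Matrix.mulVec_mulVec,
          ← Units.val_mul, inv_mul_cancel, Units.val_one, Matrix.one_mulVec]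
      have h2 := congrFun h1 a
      rw [Matrix.mulVec_single_one] at h2
      rw [show H a 0 = H.col 0 a from rfl, h2]
      by_cases ha : a = 0
      · subst ha; simp
      · simp [ha]
    let G' : Matrix (Fin N) (Fin N) K := H.submatrix Fin.succ Fin.succ
    have hch : H.charpoly = (Polynomial.X - Polynomial.C (d 0)) * G'.charpoly := by
      unfold Matrix.charpoly
      rw [Matrix.det_succ_column_zero, Finset.sum_eq_single 0]
      · rw [Matrix.charmatrix_apply_eq, hH 0, if_pos rfl, Fin.val_zero, pow_zero, one_mul]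
        congr 2
        ext a b
        simp only [Matrix.submatrix_apply, Fin.succAbove_zero]
        rw [Matrix.charmatrix_apply, Matrix.charmatrix_apply]
        by_cases hab : a = b
        · subst hab
          simp [G']
        · rw [Matrix.diagonal_apply_ne _ hab, Matrix.diagonal_apply_ne _ (fun h => hab (Fin.succ_inj.1 h))]
          rfl
      · intro a _ ha
        rw [Matrix.charmatrix_apply_ne _ _ _ ha, hH a, if_neg ha]
        simp
      · intro h
        exact absurd (Finset.mem_univ _) h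
    have hch' : H.charpoly = G.charpoly := by
      show (((B⁻¹ : GL (Fin (N + 1)) K) : Matrix (Fin (N + 1)) (Fin (N + 1)) K) * G * (B : Matrix (Fin (N + 1)) (Fin (N + 1)) K)).charpoly = G.charpoly
      rw [Matrix.coe_units_inv]
      exact Matrix.charpoly_units_conj' B G
    have hG' : G'.charpoly = ∏ j : Fin N, (Polynomial.X - Polynomial.C (d j.succ)) := by
      rw [hch', hd, Fin.prod_univ_succ] at hch
      exact (mul_left_cancel₀ (Polynomial.X_sub_C_ne_zero (d 0)) hch).symm
    obtain ⟨B', h1, h2⟩ := ih G' (fun j => d j.succ) hG'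
    let C : GL (Fin (N + 1)) K := ⟨up (B' : Matrix (Fin N) (Fin N) K), up ((B'⁻¹ : GL (Fin N) K) : Matrix (Fin N) (Fin N) K),
      by rw [up_mul, ← Units.val_mul, mul_inv_cancel, Units.val_one, up_one],
      by rw [up_mul, ← Units.val_mul, inv_mul_cancel, Units.val_one, up_one]⟩
    have e : (((B * C)⁻¹ : GL (Fin (N + 1)) K) : Matrix (Fin (N + 1)) (Fin (N + 1)) K) * G * ((B * C : GL (Fin (N + 1)) K) : Matrix (Fin (N + 1)) (Fin (N + 1)) K) =
        up ((B'⁻¹ : GL (Fin N) K) : Matrix (Fin N) (Fin N) K) * H * up (B' : Matrix (Fin N) (Fin N) K) := by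
      rw [_root_.mul_inv_rev, Units.val_mul, Units.val_mul]
      show up ((B'⁻¹ : GL (Fin N) K) : Matrix (Fin N) (Fin N) K) * ((B⁻¹ : GL (Fin (N + 1)) K) : Matrix (Fin (N + 1)) (Fin (N + 1)) K) * G * ((B : Matrix (Fin (N + 1)) (Fin (N + 1)) K) * up (B' : Matrix (Fin N) (Fin N) K)) = _
      simp only [H, Matrix.mul_assoc]
    have hs0 : ∀ s : Fin N, (up ((B'⁻¹ : GL (Fin N) K) : Matrix (Fin N) (Fin N) K) * H * up (B' : Matrix (Fin N) (Fin N) K)) s.succ 0 = 0 := by
      intro s
      rw [Matrix.mul_apply, Fin.sum_univ_succ]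
      simp only [up_s0, mul_zero, Finset.sum_const_zero, add_zero, up_00, mul_one]
      rw [Matrix.mul_apply, Fin.sum_univ_succ, up_s0, zero_mul, zero_add]
      refine Finset.sum_eq_zero fun a _ => ?_
      rw [hH, if_neg (Fin.succ_ne_zero a), mul_zero]
    have hss : ∀ s t : Fin N, (up ((B'⁻¹ : GL (Fin N) K) : Matrix (Fin N) (Fin N) K) * H * up (B' : Matrix (Fin N) (Fin N) K)) s.succ t.succ =
        (((B'⁻¹ : GL (Fin N) K) : Matrix (Fin N) (Fin N) K) * G' * (B' : Matrix (Fin N) (Fin N) K)) s t := by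
      intro s t
      rw [Matrix.mul_apply, Fin.sum_univ_succ, up_0s, mul_zero, zero_add, Matrix.mul_apply]
      refine Finset.sum_congr rfl fun a _ => ?_
      rw [up_ss, Matrix.mul_apply, Fin.sum_univ_succ, up_s0, zero_mul, zero_add, Matrix.mul_apply]
      rfl
    have h00 : (up ((B'⁻¹ : GL (Fin N) K) : Matrix (Fin N) (Fin N) K) * H * up (B' : Matrix (Fin N) (Fin N) K)) 0 0 = d 0 := by
      rw [Matrix.mul_apply, Fin.sum_univ_succ]
      simp only [up_s0, mul_zero, Finset.sum_const_zero, add_zero, up_00, mul_one]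
      rw [Matrix.mul_apply, Fin.sum_univ_succ, up_00, one_mul, hH, if_pos rfl]
      simp only [up_0s, zero_mul, Finset.sum_const_zero, add_zero]
    refine ⟨B * C, ?_, ?_⟩
    · intro s t
      rw [e]
      refine Fin.cases ?_ (fun s' => ?_) s
      · intro h
        exact absurd h (Fin.not_lt_zero t)
      · refine Fin.cases ?_ (fun t' => ?_) t
        · intro _
          exact hs0 s'
        · intro h
          rw [hss]
          exact h1 s' t' (Fin.succ_lt_succ_iff.1 h)
    · intro s
      rw [e]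
      refine Fin.cases ?_ (fun s' => ?_) s
      · exact h00
      · rw [hss]
        exact h2 s'

end Pool.Agent.Helper9.KT
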