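import Pool.Agent.Helper73.KT.Ops

/-!
# Project K'', block B4: the subspaces `pairs`
-/

set_option autoImplicit false

open Matrix H77MT Pool.Agent.Helper79.KN Pool.Agent.Helper33.KN Pool.Agent.Helper73.KT

namespace Pool.Agent.Helper9.KT

variable {X n K ι : Type} [Fintype n] [DecidableEq n] [DecidableEq X] [Field K] [CharZero K] [Fintype ι] [DecidableEq ι]

theorem pairs_zero (i : ι → X × Bool) (M : (ι → n) → K) : M ∈ pairs K n i 0 := by
  refine Submodule.subset_span ⟨Fin.elim0, Fin.elim0, ?_, fun j => j.elim0, M, ?_, ?_⟩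
  · intro a b _
    rcases a with a | a <;> exact a.elim0
  · intro s t h
    have : s = t := funext fun a => h a fun j => j.elim0
    rw [this]
  · intro s
    rw [if_pos fun j : Fin 0 => j.elim0]

/-- the injectivity for one pair -/
private theorem inj_one {a b : ι} (hab : a ≠ b) : Function.Injective (Sum.elim (fun _ : Fin 1 => a) fun _ : Fin 1 => b) := by
  intro u v h
  rcases u with u | u <;> rcases v with v | v
  · rw [Subsingleton.elim u v]
  · exact absurd h hab
  · exact absurd h.symm hab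
  · rw [Subsingleton.elim u v]

/-- generators of `pairs K n i 1` -/
private theorem one_mem {i : ι → X × Bool} {a b : ι} (hab : a ≠ b) (h : i b = ((i a).1, !(i a).2)) {M N : (ι → n) → K}
    (hN : ∀ s t : ι → n, (∀ e, e ≠ a ∧ e ≠ b → s e = t e) → N s = N t) (hM : ∀ s, M s = if s a = s b then N s else 0) :
    M ∈ pairs K n i 1 := by
  refine Submodule.subset_span ⟨fun _ => a, fun _ => b, inj_one hab, fun _ => h, N, fun s t hst => hN s t fun e he => hst e fun _ => he, fun s => ?_⟩
  rw [hM s]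
  by_cases h1 : s a = s b
  · rw [if_pos h1, if_pos fun _ => h1]
  · rw [if_neg h1, if_neg fun h2 => h1 (h2 0)]

theorem con_mem (i : ι → X × Bool) {a b : ι} (hab : a ≠ b) (h : i b = ((i a).1, !(i a).2)) (M : (ι → n) → K) :
    con a b M ∈ pairs K n i 1 := by
  refine one_mem hab h (N := fun s => ∑ d, M (Function.update (Function.update s a d) b d)) ?_ fun s => rfl
  intro s t hst
  refine Finset.sum_congr rfl fun d _ => ?_
  congr 1
  funext e
  by_cases h1 : e = b
  · subst h1
    simp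
  · rw [Function.update_of_ne h1, Function.update_of_ne h1]
    by_cases h2 : e = a
    · subst h2
      simp
    · rw [Function.update_of_ne h2, Function.update_of_ne h2]
      exact hst e ⟨h2, h1⟩

theorem pairs_le_one (i : ι → X × Bool) (q : ℕ) : pairs K n i (q + 1) ≤ pairs K n i 1 := by
  refine Submodule.span_le.2 ?_
  rintro M ⟨f, g, hinj, hfg, N, hN, hM⟩
  have hne : f 0 ≠ g 0 := fun h => by
    have := hinj (a₁ := Sum.inl 0) (a₂ := Sum.inr 0) h
    cases this
  have hf : ∀ j, j ≠ 0 → f j ≠ f 0 ∧ f j ≠ g 0 := by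
    intro j hj
    refine ⟨fun h => hj ?_, fun h => ?_⟩
    · have := hinj (a₁ := Sum.inl j) (a₂ := Sum.inl 0) h
      exact Sum.inl.inj this
    · have := hinj (a₁ := Sum.inl j) (a₂ := Sum.inr 0) h
      cases this
  have hg : ∀ j, j ≠ 0 → g j ≠ f 0 ∧ g j ≠ g 0 := by
    intro j hj
    refine ⟨fun h => ?_, fun h => hj ?_⟩
    · have := hinj (a₁ := Sum.inr j) (a₂ := Sum.inl 0) h
      cases this
    · have := hinj (a₁ := Sum.inr j) (a₂ := Sum.inr 0) h
      exact Sum.inr.inj this
  refine one_mem (N := fun s => if ∀ j, j ≠ 0 → s (f j) = s (g j) then N s else 0) hne (hfg 0) ?_ ?_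
  · intro s t hst
    have h1 : N s = N t := hN s t fun a ha => hst a (ha 0)
    have h2 : (∀ j, j ≠ 0 → s (f j) = s (g j)) ↔ ∀ j, j ≠ 0 → t (f j) = t (g j) := by
      refine forall_congr' fun j => imp_congr_right fun hj => ?_
      rw [hst _ (hf j hj), hst _ (hg j hj)]
    simp only [h1, h2]
  · intro s
    rw [hM s]
    by_cases h0 : s (f 0) = s (g 0)
    · rw [if_pos h0]
      by_cases h1 : ∀ j, j ≠ 0 → s (f j) = s (g j)
      · rw [if_pos h1, if_pos]
        intro j
        by_cases hj : j = 0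
        · rw [hj, h0]
        · exact h1 j hj
      · rw [if_neg h1, if_neg fun h => h1 fun j _ => h j]
    · rw [if_neg h0, if_neg fun h => h0 (h 0)]

theorem pairs_one_eq [Nonempty n] {i : ι → X × Bool} {M : (ι → n) → K} (hM : M ∈ pairs K n i 1) :
    ∃ F : ι → ι → (ι → n) → K, M = ∑ a, ∑ b, if a ≠ b ∧ i b = ((i a).1, !(i a).2) then con a b (F a b) else 0 := by
  obtain ⟨c₀⟩ := ‹Nonempty n›
  unfold pairs at hM
  refine Submodule.span_induction (p := fun M _ => ∃ F : ι → ι → (ι → n) → K, M = ∑ a, ∑ b, if a ≠ b ∧ i b = ((i a).1, !(i a).2) then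
    con a b (F a b) else 0) ?_ ?_ ?_ ?_ hM
  · rintro M ⟨f, g, hinj, hfg, N, hN, hM⟩
    have hne : f 0 ≠ g 0 := fun h => by
      have := hinj (a₁ := Sum.inl 0) (a₂ := Sum.inr 0) h
      cases this
    refine ⟨fun a b => if a = f 0 ∧ b = g 0 then (fun s => if s (f 0) = c₀ then N s else 0) else 0, ?_⟩
    rw [Finset.sum_eq_single (f 0)]
    · rw [Finset.sum_eq_single (g 0)]
      · rw [if_pos ⟨hne, hfg 0⟩]
        beta_reduce
        rw [if_pos ⟨rfl, rfl⟩]
        funext s
        show M s = if s (f 0) = s (g 0) then ∑ d, (fun s : ι → n => if s (f 0) = c₀ then N s else 0)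
          (Function.update (Function.update s (f 0) d) (g 0) d) else 0
        rw [hM s]
        by_cases h1 : s (f 0) = s (g 0)
        · have h2 : ∀ j : Fin 1, s (f j) = s (g j) := fun j => by rw [Subsingleton.elim j 0]; exact h1
          rw [if_pos h1, if_pos h2]
          simp only [Function.update_of_ne hne, Function.update_self]
          rw [Finset.sum_ite_eq', if_pos (Finset.mem_univ _)]
          refine hN _ _ fun e he => ?_
          rw [Function.update_of_ne (he 0).2, Function.update_of_ne (he 0).1]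
        · rw [if_neg h1, if_neg fun h2 => h1 (h2 0)]
      · intro b _ hb
        beta_reduce
        rw [if_neg (fun h : f 0 = f 0 ∧ b = g 0 => hb h.2)]
        rw [map_zero, ite_self]
      · intro h
        exact absurd (Finset.mem_univ _) h
    · intro a _ ha
      refine Finset.sum_eq_zero fun b _ => ?_
      beta_reduce
      rw [if_neg (fun h : a = f 0 ∧ b = g 0 => ha h.1), map_zero, ite_self]
    · intro h
      exact absurd (Finset.mem_univ _) h
  · exact ⟨fun _ _ => 0, by simp⟩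
  · rintro M M' _ _ ⟨F, hF⟩ ⟨F', hF'⟩
    refine ⟨fun a b => F a b + F' a b, ?_⟩
    rw [hF, hF', ← Finset.sum_add_distrib]
    refine Finset.sum_congr rfl fun a _ => ?_
    rw [← Finset.sum_add_distrib]
    refine Finset.sum_congr rfl fun b _ => ?_
    split_ifs
    · rw [map_add]
    · rw [add_zero]
  · rintro z M _ ⟨F, hF⟩
    refine ⟨fun a b => z • F a b, ?_⟩
    rw [hF, Finset.smul_sum]
    refine Finset.sum_congr rfl fun a _ => ?_
    rw [Finset.smul_sum]
    refine Finset.sum_congr rfl fun b _ => ?_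
    split_ifs
    · rw [map_smul]
    · rw [smul_zero]

/-- one generator -/
private theorem ten_gen {q : ℕ} {f g : Fin q → ι} (hinj : Function.Injective (Sum.elim f g)) {A : ι → Matrix n n K}
    (hA : ∀ j, A (f j) * (A (g j))ᵀ = 1) {M N : (ι → n) → K}
    (hN : ∀ s t : ι → n, (∀ a, (∀ j, a ≠ f j ∧ a ≠ g j) → s a = t a) → N s = N t)
    (hM : ∀ s, M s = if ∀ j, s (f j) = s (g j) then N s else 0) :
    ∃ N' : (ι → n) → K, (∀ s t : ι → n, (∀ a, (∀ j, a ≠ f j ∧ a ≠ g j) → s a = t a) → N' s = N' t) ∧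
      ∀ s, ten A M s = if ∀ j, s (f j) = s (g j) then N' s else 0 := by
  classical
  let R : Set ι := Set.range (Sum.elim f g)
  have hR : ∀ a, a ∉ R → ∀ j, a ≠ f j ∧ a ≠ g j := fun a ha j =>
    ⟨fun h => ha ⟨Sum.inl j, h.symm⟩, fun h => ha ⟨Sum.inr j, h.symm⟩⟩
  have hR' : ∀ a, (∀ j, a ≠ f j ∧ a ≠ g j) → a ∉ R := by
    rintro a ha ⟨j | j, hj⟩
    · exact (ha j).1 hj.symm
    · exact (ha j).2 hj.symm
  let e : (Fin q ⊕ Fin q) ⊕ ↥Rᶜ ≃ ι := ((Equiv.ofInjective _ hinj).sumCongr (Equiv.refl _)).trans (Equiv.Set.sumCompl R)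
  have ef : ∀ j, e (Sum.inl (Sum.inl j)) = f j := fun j => rfl
  have eg : ∀ j, e (Sum.inl (Sum.inr j)) = g j := fun j => rfl
  have ec : ∀ c : ↥Rᶜ, e (Sum.inr c) = c.1 := fun c => rfl
  let Ψ : ((Fin q → n) × (Fin q → n)) × (↥Rᶜ → n) ≃ (ι → n) :=
    ((Equiv.sumArrowEquivProdArrow (Fin q) (Fin q) n).symm.prodCongr (Equiv.refl _)).trans
      ((Equiv.sumArrowEquivProdArrow (Fin q ⊕ Fin q) ↥Rᶜ n).symm.trans (Equiv.arrowCongr e (Equiv.refl n)))
  have hΨ : ∀ p x, Ψ p (e x) = Sum.elim (Sum.elim p.1.1 p.1.2) p.2 x := by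
    intro p x
    show (Sum.elim (Sum.elim p.1.1 p.1.2) p.2) (e.symm (e x)) = _
    rw [e.symm_apply_apply]
  have pf : ∀ p j, Ψ p (f j) = p.1.1 j := fun p j => by rw [← ef, hΨ]; rfl
  have pg : ∀ p j, Ψ p (g j) = p.1.2 j := fun p j => by rw [← eg, hΨ]; rfl
  have pc : ∀ p (c : ↥Rᶜ), Ψ p c.1 = p.2 c := fun p c => by rw [← ec, hΨ]; rfl
  let gl : (ι → n) → (↥Rᶜ → n) → ι → n := fun s w a => if h : a ∈ R then s a else w ⟨a, h⟩
  have hgl : ∀ s w p, p.2 = w → N (Ψ p) = N (gl s w) := by
    intro s w p hp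
    refine hN _ _ fun a ha => ?_
    have ha' := hR' a ha
    show Ψ p a = if h : a ∈ R then s a else w ⟨a, h⟩
    rw [dif_neg ha', ← hp]
    exact pc p ⟨a, ha'⟩
  refine ⟨fun s => ∑ w : ↥Rᶜ → n, (∏ c : ↥Rᶜ, A c.1 (s c.1) (w c)) * N (gl s w), ?_, ?_⟩
  · intro s t hst
    refine Finset.sum_congr rfl fun w _ => ?_
    congr 1
    · refine Finset.prod_congr rfl fun c _ => ?_
      rw [hst c.1 (hR c.1 c.2)]
    · refine hN _ _ fun a ha => ?_
      have ha' := hR' a ha
      show (if h : a ∈ R then s a else w ⟨a, h⟩) = if h : a ∈ R then t a else w ⟨a, h⟩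
      rw [dif_neg ha', dif_neg ha']
  · intro s
    have hprod : ∀ t : ι → n, ∏ a, A a (s a) (t a) =
        ((∏ j, A (f j) (s (f j)) (t (f j))) * ∏ j, A (g j) (s (g j)) (t (g j))) * ∏ c : ↥Rᶜ, A c.1 (s c.1) (t c.1) := by
      intro t
      rw [← Equiv.prod_comp e, Fintype.prod_sum_type, Fintype.prod_sum_type]
      rfl
    have h1 : ten A M s = ∑ u : Fin q → n, ∑ v : Fin q → n, ∑ w : ↥Rᶜ → n,
        if u = v then ((∏ j, A (f j) (s (f j)) (u j)) * ∏ j, A (g j) (s (g j)) (v j)) *
          ((∏ c : ↥Rᶜ, A c.1 (s c.1) (w c)) * N (gl s w)) else 0 := by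
      unfold ten
      rw [← Equiv.sum_comp Ψ, Fintype.sum_prod_type, Fintype.sum_prod_type]
      refine Finset.sum_congr rfl fun u _ => Finset.sum_congr rfl fun v _ => Finset.sum_congr rfl fun w _ => ?_
      rw [hprod, hM]
      simp only [pf, pg, pc]
      by_cases huv : u = v
      · rw [if_pos huv, if_pos (fun j => congrFun huv j), hgl s w _ rfl, mul_assoc]
      · rw [if_neg huv, if_neg (fun h => huv (funext h)), mul_zero]
    have h2 : ∀ u : Fin q → n, (∑ v : Fin q → n, ∑ w : ↥Rᶜ → n,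
        if u = v then ((∏ j, A (f j) (s (f j)) (u j)) * ∏ j, A (g j) (s (g j)) (v j)) *
          ((∏ c : ↥Rᶜ, A c.1 (s c.1) (w c)) * N (gl s w)) else 0) =
        (∏ j, A (f j) (s (f j)) (u j) * A (g j) (s (g j)) (u j)) * ∑ w : ↥Rᶜ → n, (∏ c : ↥Rᶜ, A c.1 (s c.1) (w c)) * N (gl s w) := by
      intro u
      rw [Finset.sum_eq_single u]
      · rw [Finset.mul_sum, Finset.prod_mul_distrib]
        refine Finset.sum_congr rfl fun w _ => ?_
        rw [if_pos rfl]
      · intro v _ hv
        refine Finset.sum_eq_zero fun w _ => ?_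
        rw [if_neg (Ne.symm hv)]
      · intro h
        exact absurd (Finset.mem_univ _) h
    rw [h1, Finset.sum_congr rfl fun u _ => h2 u, ← Finset.sum_mul]
    have h3 : ∑ u : Fin q → n, ∏ j, A (f j) (s (f j)) (u j) * A (g j) (s (g j)) (u j) =
        ∏ j : Fin q, if s (f j) = s (g j) then (1 : K) else 0 := by
      have h4 : ∀ j : Fin q, ∑ c, A (f j) (s (f j)) c * A (g j) (s (g j)) c = if s (f j) = s (g j) then (1 : K) else 0 := by
        intro j
        have h5 := congrFun (congrFun (hA j) (s (f j))) (s (g j))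
        rw [Matrix.mul_apply, Matrix.one_apply] at h5
        simpa only [Matrix.transpose_apply] using h5
      rw [← Finset.prod_congr rfl fun j _ => h4 j, Finset.prod_univ_sum, Fintype.piFinset_univ]
    rw [h3]
    by_cases hs : ∀ j, s (f j) = s (g j)
    · rw [if_pos hs, Finset.prod_eq_one fun j _ => if_pos (hs j), one_mul]
    · rw [if_neg hs]
      push Not at hs
      obtain ⟨j, hj⟩ := hs
      rw [Finset.prod_eq_zero (Finset.mem_univ j) (if_neg hj), zero_mul]

/-- stable under base changes which preserve the pairings -/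
theorem pairs_ten (i : ι → X × Bool) (q : ℕ) (A : ι → Matrix n n K)
    (hA : ∀ a b, i b = ((i a).1, !(i a).2) → A a * (A b)ᵀ = 1) : ∀ M ∈ pairs K n i q, ten A M ∈ pairs K n i q := by
  have key : pairs K n i q ≤ (pairs K n i q).comap (tenL A) := by
    refine Submodule.span_le.2 ?_
    rintro M ⟨f, g, hinj, hfg, N, hN, hM⟩
    obtain ⟨N', hN', hM'⟩ := ten_gen hinj (fun j => hA _ _ (hfg j)) hN hM
    exact Submodule.subset_span ⟨f, g, hinj, hfg, N', hN', hM'⟩
  exact fun M hM => key hM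

end Pool.Agent.Helper9.KT
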