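import Pool.Agent.Helper73.KT.Ops

/-!
# Project K'', block B3: the Casimir identity
-/

set_option autoImplicit false

open Matrix H77MT Pool.Agent.Helper79.KN Pool.Agent.Helper33.KN Pool.Agent.Helper73.KT

namespace Pool.Agent.Helper9.KT

variable {X n K ι : Type} [Fintype n] [DecidableEq n] [DecidableEq X] [Field K] [Fintype ι] [DecidableEq ι]

private theorem lie_apply (i : ι → X × Bool) (x : X) (c d : n) (M : (ι → n) → K) (s : ι → n) :
    lie i x c d M s = ∑ a, if (i a).1 = x then
      (if (i a).2 then (if s a = c then M (Function.update s a d) else 0)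
        else (if s a = d then -M (Function.update s a c) else 0)) else 0 := rfl

/-- two updates, one of them with the old value -/
private theorem upd_sw (s : ι → n) {a b : ι} (hab : b ≠ a) :
    Function.update (Function.update s a (s b)) b (s a) = s ∘ Equiv.swap a b := by
  funext e
  by_cases h1 : e = b
  · subst h1
    simp
  · by_cases h2 : e = a
    · subst h2
      rw [Function.update_of_ne h1, Function.update_self]
      simp
    · rw [Function.update_of_ne h1, Function.update_of_ne h2]
      simp [Equiv.swap_apply_of_ne_of_ne h2 h1]

/-- the summand of a factor of the first kind -/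
private theorem cas_true (i : ι → X × Bool) (x : X) (M : (ι → n) → K) (s : ι → n) {a : ι} (ha : (i a).1 = x) (hb : (i a).2 = true) :
    ∑ d, lie i x d (s a) M (Function.update s a d) = (Fintype.card n : K) * M s + ∑ b, if b ≠ a ∧ (i b).1 = x then
        (if (i b).2 = (i a).2 then sw a b M s else -con a b M s) else 0 := by
  simp only [lie_apply]
  rw [Finset.sum_comm, ← Finset.add_sum_erase _ _ (Finset.mem_univ a)]
  congr 1
  · rw [Finset.sum_congr rfl (g := fun _ => M s)]
    · rw [Finset.sum_const, Finset.card_univ, nsmul_eq_mul]
    · intro d _
      rw [if_pos ha, if_pos hb, if_pos (Function.update_self _ _ _), Function.update_idem, Function.update_eq_self]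
  · rw [← Finset.add_sum_erase Finset.univ (fun b => if b ≠ a ∧ (i b).1 = x then
        (if (i b).2 = (i a).2 then sw a b M s else -con a b M s) else 0) (Finset.mem_univ a), if_neg (fun h => h.1 rfl), zero_add]
    refine Finset.sum_congr rfl fun b hb' => ?_
    have hba : b ≠ a := (Finset.mem_erase.1 hb').1
    by_cases hbx : (i b).1 = x
    · rw [if_pos ⟨hba, hbx⟩]
      simp only [if_pos hbx, Function.update_of_ne hba]
      by_cases h2 : (i b).2 = true
      · rw [hb, if_pos h2]
        simp only [if_pos h2]
        rw [Finset.sum_ite_eq, if_pos (Finset.mem_univ _), upd_sw s hba]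
        rfl
      · have h3 : (i b).2 ≠ (i a).2 := by rw [hb]; exact h2
        rw [if_neg h3]
        simp only [if_neg h2]
        show _ = -(if s a = s b then ∑ d, M (Function.update (Function.update s a d) b d) else 0)
        by_cases h4 : s b = s a
        · rw [if_pos h4.symm]
          simp only [if_pos h4, Finset.sum_neg_distrib]
        · rw [if_neg (Ne.symm h4)]
          simp only [if_neg h4, Finset.sum_const_zero, neg_zero]
    · rw [if_neg (fun h => hbx h.2)]
      simp only [if_neg hbx, Finset.sum_const_zero]

/-- the summand of a factor of the second kind -/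
private theorem cas_false (i : ι → X × Bool) (x : X) (M : (ι → n) → K) (s : ι → n) {a : ι} (ha : (i a).1 = x) (hb : ¬ (i a).2 = true) :
    ∑ c, -lie i x (s a) c M (Function.update s a c) = (Fintype.card n : K) * M s + ∑ b, if b ≠ a ∧ (i b).1 = x then
        (if (i b).2 = (i a).2 then sw a b M s else -con a b M s) else 0 := by
  simp only [lie_apply, ← Finset.sum_neg_distrib]
  rw [Finset.sum_comm, ← Finset.add_sum_erase _ _ (Finset.mem_univ a)]
  congr 1
  · rw [Finset.sum_congr rfl (g := fun _ => M s)]
    · rw [Finset.sum_const, Finset.card_univ, nsmul_eq_mul]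
    · intro d _
      rw [if_pos ha, if_neg hb, if_pos (Function.update_self _ _ _), Function.update_idem, Function.update_eq_self, neg_neg]
  · rw [← Finset.add_sum_erase Finset.univ (fun b => if b ≠ a ∧ (i b).1 = x then
        (if (i b).2 = (i a).2 then sw a b M s else -con a b M s) else 0) (Finset.mem_univ a), if_neg (fun h => h.1 rfl), zero_add]
    refine Finset.sum_congr rfl fun b hb' => ?_
    have hba : b ≠ a := (Finset.mem_erase.1 hb').1
    have hb0 : (i a).2 = false := by simpa using hb
    by_cases hbx : (i b).1 = x
    · rw [if_pos ⟨hba, hbx⟩]
      simp only [if_pos hbx, Function.update_of_ne hba]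
      by_cases h2 : (i b).2 = true
      · have h3 : (i b).2 ≠ (i a).2 := by rw [hb0, h2]; decide
        rw [if_neg h3]
        simp only [if_pos h2]
        show _ = -(if s a = s b then ∑ d, M (Function.update (Function.update s a d) b d) else 0)
        by_cases h4 : s b = s a
        · rw [if_pos h4.symm]
          simp only [if_pos h4, Finset.sum_neg_distrib]
        · rw [if_neg (Ne.symm h4)]
          simp only [if_neg h4, Finset.sum_const_zero, neg_zero]
      · have h3 : (i b).2 = (i a).2 := by rw [hb0]; simpa using h2
        rw [if_pos h3]
        simp only [if_neg h2]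
        have e : ∀ c, -(if s b = c then -M (Function.update (Function.update s a c) b (s a)) else 0) =
            if s b = c then M (Function.update (Function.update s a c) b (s a)) else 0 := by
          intro c
          split_ifs <;> simp
        simp only [e]
        rw [Finset.sum_ite_eq, if_pos (Finset.mem_univ _), upd_sw s hba]
        rfl
    · rw [if_neg (fun h => hbx h.2)]
      simp only [if_neg hbx, neg_zero, Finset.sum_const_zero]

theorem casimir (i : ι → X × Bool) (x : X) (M : (ι → n) → K) :
    ∑ c, ∑ d, lie i x c d (lie i x d c M) = ∑ a, if (i a).1 = x then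
      ((Fintype.card n : K) • M + ∑ b, if b ≠ a ∧ (i b).1 = x then
        (if (i b).2 = (i a).2 then sw a b M else -con a b M) else 0) else 0 := by
  funext s
  have hR : (∑ a, if (i a).1 = x then
      ((Fintype.card n : K) • M + ∑ b, if b ≠ a ∧ (i b).1 = x then
        (if (i b).2 = (i a).2 then sw a b M else -con a b M) else 0) else 0) s =
      ∑ a, if (i a).1 = x then ((Fintype.card n : K) * M s + ∑ b, if b ≠ a ∧ (i b).1 = x then
        (if (i b).2 = (i a).2 then sw a b M s else -con a b M s) else 0) else 0 := by
    rw [Finset.sum_apply]
    refine Finset.sum_congr rfl fun a _ => ?_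
    by_cases ha : (i a).1 = x
    · rw [if_pos ha, if_pos ha, Pi.add_apply, Pi.smul_apply, smul_eq_mul, Finset.sum_apply]
      congr 1
      refine Finset.sum_congr rfl fun b _ => ?_
      split_ifs <;> rfl
    · rw [if_neg ha, if_neg ha]
      rfl
  rw [hR]
  simp only [Finset.sum_apply]
  have h1 : ∀ c d : n, lie i x c d (lie i x d c M) s = ∑ a, if (i a).1 = x then
      (if (i a).2 then (if s a = c then lie i x d c M (Function.update s a d) else 0)
        else (if s a = d then -lie i x d c M (Function.update s a c) else 0)) else 0 := fun c d => lie_apply i x c d _ s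
  simp only [h1]
  have h2 : ∀ c : n, (∑ d : n, ∑ a, if (i a).1 = x then
      (if (i a).2 then (if s a = c then lie i x d c M (Function.update s a d) else 0)
        else (if s a = d then -lie i x d c M (Function.update s a c) else 0)) else 0) =
      ∑ a, ∑ d : n, if (i a).1 = x then
      (if (i a).2 then (if s a = c then lie i x d c M (Function.update s a d) else 0)
        else (if s a = d then -lie i x d c M (Function.update s a c) else 0)) else 0 := fun c => Finset.sum_comm
  simp only [h2]
  rw [Finset.sum_comm]
  refine Finset.sum_congr rfl fun a _ => ?_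
  by_cases ha : (i a).1 = x
  · simp only [if_pos ha]
    by_cases hb : (i a).2 = true
    · rw [← cas_true i x M s ha hb]
      simp only [if_pos hb]
      rw [Finset.sum_comm]
      refine Finset.sum_congr rfl fun d _ => ?_
      rw [Finset.sum_ite_eq, if_pos (Finset.mem_univ _)]
    · rw [← cas_false i x M s ha hb]
      simp only [if_neg hb]
      refine Finset.sum_congr rfl fun c _ => ?_
      rw [Finset.sum_ite_eq, if_pos (Finset.mem_univ _)]
  · simp only [if_neg ha, Finset.sum_const_zero]

end Pool.Agent.Helper9.KT
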